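import Pool.Agent.ST14.Final
import Pool.Agent.ST14.FinAll

/-!
# Stanley's P-partition symmetry conjecture

The generating function of a labelled poset is symmetric if and only if the labelled poset is
isomorphic to a skew-shape labelled poset.
-/

set_option autoImplicit false

namespace Pool.Agent.Results.MP_49bc13_co.SkewShapeTheorem

/-- `f` is a `(P, ω)`-partition (with values `0, 1, 2, …`). -/
def IsPartition {P : Type} [PartialOrder P] {n : ℕ} (ω : P ≃ Fin n) (f : P → ℕ) : Prop :=
  ∀ s t : P, s < t → f s ≤ f t ∧ (ω t < ω s → f s < f t)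

/-- The generating function `K_{P, ω}` in the variables `x_0, x_1, …`: the coefficient of a monomial
`x^m` is the number of `(P, ω)`-partitions `f` with `∏ x_{f(s)} = x^m`. -/
noncomputable def K {P : Type} [Fintype P] [PartialOrder P] {n : ℕ} (ω : P ≃ Fin n) :
    MvPowerSeries ℕ ℤ :=
  fun m => (Nat.card {f : P → ℕ // IsPartition ω f ∧ ∑ s, Finsupp.single (f s) 1 = m} : ℤ)

/-- A power series in the variables `x_0, x_1, …` is symmetric: invariant under every permutation of
the variables. -/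
def Symmetric (F : MvPowerSeries ℕ ℤ) : Prop :=
  ∀ (σ : Equiv.Perm ℕ) (m : ℕ →₀ ℕ),
    MvPowerSeries.coeff (m.equivMapDomain σ) F = MvPowerSeries.coeff m F

/-- Isomorphism of labelled posets: an order isomorphism which maps strict cover relations to strict
ones and weak ones to weak ones (a cover relation `s ⋖ t` is strict if the label of `s` is larger
than that of `t`). -/
def Iso {P Q : Type} [PartialOrder P] [PartialOrder Q] {n m : ℕ} (ω : P ≃ Fin n) (τ : Q ≃ Fin m) :
    Prop :=
  ∃ e : P ≃o Q, ∀ s t : P, s ⋖ t → (ω t < ω s ↔ τ (e t) < τ (e s))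

/-- A labelling of the cells `(i, j)` (row `i`, column `j`) of the skew shape `lam / mu` which
increases left to right along each row and decreases top to bottom down each column. -/
def IsSkewLabelling {lam mu : YoungDiagram} {m : ℕ} (τ : ↥(lam.cells \ mu.cells) ≃ Fin m) : Prop :=
  (∀ s t : ↥(lam.cells \ mu.cells), s.1.1 = t.1.1 → s.1.2 < t.1.2 → τ s < τ t) ∧
    ∀ s t : ↥(lam.cells \ mu.cells), s.1.2 = t.1.2 → s.1.1 < t.1.1 → τ t < τ s

/-! ### the symmetry condition -/

theorem sum_single {P : Type} [Fintype P] (f : P → ℕ) (m : ℕ →₀ ℕ) :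
    ∑ s, Finsupp.single (f s) 1 = m ↔ ∀ i, Nat.card {x : P // f x = i} = m i := by
  classical
  have h : ∀ i, (∑ s, Finsupp.single (f s) (1 : ℕ)) i = Nat.card {x : P // f x = i} := by
    intro i
    rw [Finsupp.finsetSum_apply, Nat.card_eq_fintype_card, Fintype.card_subtype,
      Finset.card_filter]
    exact Finset.sum_congr rfl fun s _ => Finsupp.single_apply
  constructor
  · rintro rfl i
    exact (h i).symm
  · intro h1
    ext i
    rw [h, h1]

section symm

variable {P : Type} [Fintype P] [PartialOrder P] (ω : P ≃ Fin (Fintype.card P))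

/-- the number of partitions of content `α` -/
noncomputable def cnt (α : ℕ → ℕ) : ℕ :=
  Nat.card {f : P → ℕ // (∀ s t : P, s < t → f s ≤ f t) ∧
    (∀ s t : P, s < t → ω t < ω s → f s < f t) ∧ ∀ i : ℕ, Nat.card {x : P // f x = i} = α i}

theorem coeff_K (m : ℕ →₀ ℕ) : MvPowerSeries.coeff m (K ω) = (cnt ω m : ℤ) := by
  show ((Nat.card {f : P → ℕ // IsPartition ω f ∧ ∑ s, Finsupp.single (f s) 1 = m} : ℕ) : ℤ) = _
  unfold cnt
  congr 1
  refine Nat.card_congr (Equiv.subtypeEquivRight fun f => ?_)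
  rw [sum_single]
  constructor
  · rintro ⟨h1, h2⟩
    exact ⟨fun s t h => (h1 s t h).1, fun s t h => (h1 s t h).2, h2⟩
  · rintro ⟨h1, h2, h3⟩
    exact ⟨fun s t h => ⟨h1 s t h, h2 s t h⟩, h3⟩

theorem cnt_infinite {α : ℕ → ℕ} (h : (Function.support α).Infinite) : cnt ω α = 0 := by
  classical
  unfold cnt
  have : IsEmpty {f : P → ℕ // (∀ s t : P, s < t → f s ≤ f t) ∧
      (∀ s t : P, s < t → ω t < ω s → f s < f t) ∧
      ∀ i : ℕ, Nat.card {x : P // f x = i} = α i} := by
    refine ⟨fun ⟨f, _, _, h3⟩ => h ?_⟩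
    refine (Set.finite_range f).subset fun i hi => ?_
    have h4 : Nat.card {x : P // f x = i} ≠ 0 := by rw [h3 i]; exact hi
    have h5 : Nonempty {x : P // f x = i} := by
      by_contra hc
      rw [not_nonempty_iff] at hc
      exact h4 Nat.card_of_isEmpty
    obtain ⟨x, hx⟩ := h5
    exact ⟨x, hx⟩
  exact Nat.card_of_isEmpty

theorem symmetric_iff : Symmetric (K ω) ↔ ∀ (α : ℕ → ℕ) (σ : Equiv.Perm ℕ),
    cnt ω α = cnt ω (fun i => α (σ i)) := by
  constructor
  · intro h α σ
    by_cases hα : (Function.support α).Finite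
    · have h1 := h σ.symm (Finsupp.ofSupportFinite α hα)
      rw [coeff_K, coeff_K] at h1
      have h2 : ((Finsupp.ofSupportFinite α hα).equivMapDomain σ.symm : ℕ → ℕ) =
          fun i => α (σ i) := by
        funext i
        rw [Finsupp.equivMapDomain_apply, Equiv.symm_symm]
        rfl
      rw [h2] at h1
      exact_mod_cast h1.symm
    · have h2 : (Function.support fun i => α (σ i)).Infinite := by
        intro h3
        apply hα
        have : Function.support α ⊆ σ '' (Function.support fun i => α (σ i)) := by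
          intro i hi
          refine ⟨σ.symm i, ?_, σ.apply_symm_apply i⟩
          show α (σ (σ.symm i)) ≠ 0
          rw [σ.apply_symm_apply]
          exact hi
        exact (h3.image σ).subset this
      rw [cnt_infinite ω hα, cnt_infinite ω h2]
  · intro h σ m
    rw [coeff_K, coeff_K]
    have h1 := h m σ.symm
    have h2 : (m.equivMapDomain σ : ℕ → ℕ) = fun i => m (σ.symm i) := by
      funext i
      rw [Finsupp.equivMapDomain_apply]
    rw [h2, h1]

end symm

/-! ### skew shapes -/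

section skew

variable {lam mu : YoungDiagram}

/-- cells between two cells of a skew shape -/
theorem mem_between {s t : ↥(lam.cells \ mu.cells)} {i j : ℕ} (h1 : s.1.1 ≤ i) (h2 : s.1.2 ≤ j)
    (h3 : i ≤ t.1.1) (h4 : j ≤ t.1.2) : (i, j) ∈ lam.cells \ mu.cells := by
  have hs := Finset.mem_sdiff.1 s.2
  have ht := Finset.mem_sdiff.1 t.2
  refine Finset.mem_sdiff.2 ⟨?_, ?_⟩
  · exact (YoungDiagram.mem_cells _).2 (lam.up_left_mem h3 h4 ((YoungDiagram.mem_cells _).1 ht.1))
  · intro h
    exact hs.2 ((YoungDiagram.mem_cells _).2 (mu.up_left_mem h1 h2 ((YoungDiagram.mem_cells _).1 h)))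

theorem le_def {s t : ↥(lam.cells \ mu.cells)} : s ≤ t ↔ s.1.1 ≤ t.1.1 ∧ s.1.2 ≤ t.1.2 := Iff.rfl

theorem cell_ext {s t : ↥(lam.cells \ mu.cells)} (h1 : s.1.1 = t.1.1) (h2 : s.1.2 = t.1.2) :
    s = t := Subtype.ext (Prod.ext h1 h2)

theorem lt_def {s t : ↥(lam.cells \ mu.cells)} :
    s < t ↔ (s.1.1 ≤ t.1.1 ∧ s.1.2 ≤ t.1.2) ∧ (s.1.1 < t.1.1 ∨ s.1.2 < t.1.2) := by
  rw [lt_iff_le_and_ne, le_def]
  constructor
  · rintro ⟨h1, h2⟩
    refine ⟨h1, ?_⟩
    by_contra hc
    push Not at hc
    exact h2 (cell_ext (le_antisymm h1.1 hc.1) (le_antisymm h1.2 hc.2))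
  · rintro ⟨h1, h2⟩
    refine ⟨h1, ?_⟩
    rintro rfl
    rcases h2 with h2 | h2 <;> exact lt_irrefl _ h2

theorem covBy_row {s t : ↥(lam.cells \ mu.cells)} (h1 : s.1.1 = t.1.1) (h2 : s.1.2 + 1 = t.1.2) :
    s ⋖ t := by
  refine ⟨lt_def.2 ⟨⟨h1.le, by omega⟩, Or.inr (by omega)⟩, ?_⟩
  intro c hc1 hc2
  rw [lt_def] at hc1 hc2
  omega

theorem covBy_col {s t : ↥(lam.cells \ mu.cells)} (h1 : s.1.2 = t.1.2) (h2 : s.1.1 + 1 = t.1.1) :
    s ⋖ t := by
  refine ⟨lt_def.2 ⟨⟨by omega, h1.le⟩, Or.inl (by omega)⟩, ?_⟩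
  intro c hc1 hc2
  rw [lt_def] at hc1 hc2
  omega

/-- induction along a row -/
theorem row_induction {R : ↥(lam.cells \ mu.cells) → ↥(lam.cells \ mu.cells) → Prop}
    (h1 : ∀ s t, s.1.1 = t.1.1 → s.1.2 + 1 = t.1.2 → R s t) (h2 : ∀ s t u, R s t → R t u → R s u)
    {s t : ↥(lam.cells \ mu.cells)} (hr : s.1.1 = t.1.1) (hc : s.1.2 < t.1.2) : R s t := by
  obtain ⟨k, hk⟩ := Nat.exists_eq_add_of_lt hc
  induction k generalizing t with
  | zero => exact h1 s t hr (by omega)
  | succ k ih =>
    have hm : (s.1.1, s.1.2 + k + 1) ∈ lam.cells \ mu.cells :=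
      mem_between (s := s) (t := t) le_rfl (by omega) hr.le (by omega)
    exact h2 s ⟨_, hm⟩ t (ih (t := ⟨_, hm⟩) rfl (by show s.1.2 < s.1.2 + k + 1; omega) rfl)
      (h1 ⟨_, hm⟩ t hr (by show s.1.2 + k + 1 + 1 = t.1.2; omega))

/-- induction along a column -/
theorem col_induction {R : ↥(lam.cells \ mu.cells) → ↥(lam.cells \ mu.cells) → Prop}
    (h1 : ∀ s t, s.1.2 = t.1.2 → s.1.1 + 1 = t.1.1 → R s t) (h2 : ∀ s t u, R s t → R t u → R s u)
    {s t : ↥(lam.cells \ mu.cells)} (hr : s.1.2 = t.1.2) (hc : s.1.1 < t.1.1) : R s t := by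
  obtain ⟨k, hk⟩ := Nat.exists_eq_add_of_lt hc
  induction k generalizing t with
  | zero => exact h1 s t hr (by omega)
  | succ k ih =>
    have hm : (s.1.1 + k + 1, s.1.2) ∈ lam.cells \ mu.cells :=
      mem_between (s := s) (t := t) (by omega) le_rfl (by omega) hr.le
    exact h2 s ⟨_, hm⟩ t (ih (t := ⟨_, hm⟩) rfl (by show s.1.1 < s.1.1 + k + 1; omega) rfl)
      (h1 ⟨_, hm⟩ t hr (by show s.1.1 + k + 1 + 1 = t.1.1; omega))

end skew

/-! ### posets -/

section poset

variable {P : Type} [Fintype P] [PartialOrder P] {n : ℕ} (ω : P ≃ Fin n)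

/-- the number of elements below `u` -/
noncomputable def rk (u : P) : ℕ := Nat.card {v : P // v ≤ u}

omit [Fintype P] in
theorem rk_lt [Finite P] {u v : P} (h : u < v) : rk u < rk v := by
  unfold rk
  have h1 : ({w : P | w ≤ u} : Set P) ⊂ {w : P | w ≤ v} := by
    refine ⟨fun w hw => le_trans hw h.le, fun h2 => ?_⟩
    have h3 : v ≤ u := h2 (show v ∈ {w : P | w ≤ v} from le_rfl)
    exact absurd h3 (not_le_of_gt h)
  exact Set.ncard_lt_ncard h1 (Set.toFinite _)

/-- a strictly increasing function with `f t < f s`, for `¬ s ≤ t` -/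
theorem exists_sep {s t : P} (h : ¬ s ≤ t) :
    ∃ f : P → ℕ, (∀ u v, u < v → f u < f v) ∧ f t < f s := by
  classical
  refine ⟨fun u => rk u + if s ≤ u then rk t + 1 else 0, ?_, ?_⟩
  · intro u v huv
    have h1 := rk_lt huv
    show rk u + _ < rk v + _
    by_cases h2 : s ≤ u
    · rw [if_pos h2, if_pos (h2.trans huv.le)]
      omega
    · rw [if_neg h2]
      split_ifs <;> omega
  · show rk t + _ < rk s + _
    rw [if_neg h, if_pos le_rfl]
    omega

/-- a partition with `f s = f t`, for a weak cover relation -/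
theorem exists_merge {s t : P} (hst : s ⋖ t) (hw : ω s < ω t) :
    ∃ f : P → ℕ, IsPartition ω f ∧ f s = f t := by
  classical
  have hlt := hst.lt
  let N : ℕ := ∑ u : P, rk u
  have hN : ∀ u : P, rk u ≤ N := fun u =>
    Finset.single_le_sum (f := fun u : P => rk u) (fun _ _ => Nat.zero_le _) (Finset.mem_univ u)
  refine ⟨fun u => if s ≤ u then (if u = s ∨ u = t then N + 1 else N + 2 + rk u) else rk u, ?_, ?_⟩
  · have key : ∀ u v : P, u < v → ¬ (u = s ∧ v = t) →
        (if s ≤ u then (if u = s ∨ u = t then N + 1 else N + 2 + rk u) else rk u) <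
        (if s ≤ v then (if v = s ∨ v = t then N + 1 else N + 2 + rk v) else rk v) := by
      intro u v huv hne
      have h1 := rk_lt huv
      have h2 := hN u
      by_cases hsu : s ≤ u
      · have hsv : s < v := lt_of_le_of_lt hsu huv
        rw [if_pos hsu, if_pos hsv.le]
        have hvt : ¬ (v = s ∨ v = t) := by
          rintro (h3 | h3)
          · exact hsv.ne' h3
          · by_cases h4 : u = s
            · exact hne ⟨h4, h3⟩
            · exact hst.2 (lt_of_le_of_ne hsu (Ne.symm h4)) (h3 ▸ huv)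
        rw [if_neg hvt]
        split_ifs <;> omega
      · rw [if_neg hsu]
        split_ifs <;> omega
    intro u v huv
    by_cases hc : u = s ∧ v = t
    · obtain ⟨rfl, rfl⟩ := hc
      refine ⟨?_, fun h => absurd h (not_lt_of_gt hw)⟩
      show (if u ≤ u then (if u = u ∨ u = v then N + 1 else N + 2 + rk u) else rk u) ≤
        (if u ≤ v then (if v = u ∨ v = v then N + 1 else N + 2 + rk v) else rk v)
      rw [if_pos le_rfl, if_pos (Or.inl rfl), if_pos huv.le, if_pos (Or.inr rfl)]
    · exact ⟨(key u v huv hc).le, fun _ => key u v huv hc⟩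
  · show (if s ≤ s then (if s = s ∨ s = t then N + 1 else N + 2 + rk s) else rk s) =
      (if s ≤ t then (if t = s ∨ t = t then N + 1 else N + 2 + rk t) else rk t)
    rw [if_pos le_rfl, if_pos (Or.inl rfl), if_pos hlt.le, if_pos (Or.inr rfl)]

end poset

/-! ### the two conditions for a bijection with the cells -/

section conv

variable {P : Type} [Fintype P] [PartialOrder P] {n : ℕ} {ω : P ≃ Fin n} {lam mu : YoungDiagram}

/-- the fillings of the skew shape -/
def Filling (e : P ≃ ↥(lam.cells \ mu.cells)) (f : P → ℕ) : Prop :=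
  (∀ s t : P, (e s).1.1 = (e t).1.1 → (e s).1.2 < (e t).1.2 → f s ≤ f t) ∧
    ∀ s t : P, (e s).1.2 = (e t).1.2 → (e s).1.1 < (e t).1.1 → f s < f t

omit [Fintype P] [PartialOrder P] in
/-- fillings are increasing for the order of the cells -/
theorem Filling.le {e : P ≃ ↥(lam.cells \ mu.cells)} {f : P → ℕ} (h : Filling e f) {s t : P}
    (h1 : (e s).1.1 ≤ (e t).1.1) (h2 : (e s).1.2 ≤ (e t).1.2) :
    f s ≤ f t ∧ ((e s).1.1 < (e t).1.1 → f s < f t) := by
  have hm : ((e s).1.1, (e t).1.2) ∈ lam.cells \ mu.cells :=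
    mem_between (s := e s) (t := e t) le_rfl h2 h1 le_rfl
  obtain ⟨c, hc⟩ := e.surjective ⟨_, hm⟩
  have hc1 : (e c).1.1 = (e s).1.1 := by rw [hc]
  have hc2 : (e c).1.2 = (e t).1.2 := by rw [hc]
  have e1 : f s ≤ f c := by
    rcases h2.lt_or_eq with h3 | h3
    · exact h.1 s c hc1.symm (by rw [hc2]; exact h3)
    · have : s = c := e.injective (cell_ext hc1.symm (by rw [hc2]; exact h3))
      rw [this]
  have e2 : f c ≤ f t ∧ ((e s).1.1 < (e t).1.1 → f c < f t) := by
    rcases h1.lt_or_eq with h3 | h3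
    · have := h.2 c t hc2 (by rw [hc1]; exact h3)
      exact ⟨this.le, fun _ => this⟩
    · have : c = t := e.injective (cell_ext (by rw [hc1]; exact h3) hc2)
      rw [this]
      exact ⟨le_rfl, fun h4 => absurd h3 h4.ne⟩
  exact ⟨e1.trans e2.1, fun h3 => lt_of_le_of_lt e1 (e2.2 h3)⟩

/-- from fillings to an isomorphism -/
theorem iso_of_fill (e : P ≃ ↥(lam.cells \ mu.cells)) (h : ∀ f : P → ℕ, IsPartition ω f ↔ Filling e f) :
    ∃ τ : ↥(lam.cells \ mu.cells) ≃ Fin n, IsSkewLabelling τ ∧ Iso ω τ := by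
  classical
  have hfinQ : Fintype ↥(lam.cells \ mu.cells) := Fintype.ofEquiv P e
  have hinc : ∀ f : P → ℕ, (∀ u v, u < v → f u < f v) → IsPartition ω f :=
    fun f hf u v huv => ⟨(hf u v huv).le, fun _ => hf u v huv⟩
  have hle : ∀ s t : P, e s ≤ e t ↔ s ≤ t := by
    intro s t
    constructor
    · intro h1
      by_contra hc
      obtain ⟨f, hf, hft⟩ := exists_sep hc
      have h2 := ((h f).1 (hinc f hf)).le h1.1 h1.2
      exact absurd h2.1 (not_le_of_gt hft)
    · intro h1
      by_contra hc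
      obtain ⟨g, hg, hgt⟩ := exists_sep hc
      have h2 : Filling e (fun u => g (e u)) := by
        constructor
        · intro u v h3 h4
          exact (hg _ _ (lt_def.2 ⟨⟨h3.le, h4.le⟩, Or.inr h4⟩)).le
        · intro u v h3 h4
          exact hg _ _ (lt_def.2 ⟨⟨h4.le, h3.le⟩, Or.inl h4⟩)
      have h3 := (h _).2 h2
      rcases h1.lt_or_eq with h4 | h4
      · exact absurd (h3 s t h4).1 (not_le_of_gt hgt)
      · rw [h4] at hgt
        exact lt_irrefl _ hgt
  let eo : P ≃o ↥(lam.cells \ mu.cells) := { e with map_rel_iff' := fun {a b} => hle a b }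
  have heo : ∀ s, eo s = e s := fun s => rfl
  -- labels
  have hrow : ∀ s t : P, (e s).1.1 = (e t).1.1 → (e s).1.2 < (e t).1.2 → ω s < ω t := by
    intro s t h1 h2
    have hst : s < t := by
      rw [lt_iff_le_and_ne]
      refine ⟨(hle s t).1 ⟨h1.le, h2.le⟩, ?_⟩
      rintro rfl
      exact lt_irrefl _ h2
    by_contra hc
    have h3 : ω t < ω s := by
      rcases lt_trichotomy (ω s) (ω t) with h4 | h4 | h4
      · exact absurd h4 hc
      · exact absurd (ω.injective h4) hst.ne
      · exact h4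
    have h4 : Filling e (fun u => (e u).1.1) := ⟨fun u v h5 _ => h5.le, fun u v _ h5 => h5⟩
    have h5 := ((h _).2 h4 s t hst).2 h3
    exact absurd h1 h5.ne
  have hcol : ∀ s t : P, (e s).1.2 = (e t).1.2 → (e s).1.1 + 1 = (e t).1.1 → ω t < ω s := by
    intro s t h1 h2
    have hcov : s ⋖ t := by
      have h3 : e s ⋖ e t := covBy_col h1 h2
      rw [← heo, ← heo] at h3
      exact (apply_covBy_apply_iff eo).1 h3
    by_contra hc
    have h3 : ω s < ω t := by
      rcases lt_trichotomy (ω s) (ω t) with h4 | h4 | h4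
      · exact h4
      · exact absurd (ω.injective h4) hcov.lt.ne
      · exact absurd h4 hc
    obtain ⟨f, hf, hfe⟩ := exists_merge ω hcov h3
    have h4 := ((h f).1 hf).2 s t h1 (by omega)
    exact absurd hfe h4.ne
  refine ⟨e.symm.trans ω, ⟨?_, ?_⟩, eo, ?_⟩
  · intro s t h1 h2
    show ω (e.symm s) < ω (e.symm t)
    refine hrow _ _ ?_ ?_
    · rw [e.apply_symm_apply, e.apply_symm_apply]; exact h1
    · rw [e.apply_symm_apply, e.apply_symm_apply]; exact h2
  · intro s t h1 h2
    refine col_induction (R := fun s t => (e.symm.trans ω) t < (e.symm.trans ω) s) ?_ ?_ h1 h2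
    · intro s t h3 h4
      show ω (e.symm t) < ω (e.symm s)
      refine hcol _ _ ?_ ?_
      · rw [e.apply_symm_apply, e.apply_symm_apply]; exact h3
      · rw [e.apply_symm_apply, e.apply_symm_apply]; exact h4
    · intro s t u h3 h4
      exact lt_trans h4 h3
  · intro s t _
    show ω t < ω s ↔ ω (e.symm (e t)) < ω (e.symm (e s))
    rw [e.symm_apply_apply, e.symm_apply_apply]

omit [Fintype P] in
/-- from an isomorphism to fillings -/
theorem fill_of_iso {m : ℕ} {τ : ↥(lam.cells \ mu.cells) ≃ Fin m} (hτ : IsSkewLabelling τ)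
    (e : P ≃o ↥(lam.cells \ mu.cells))
    (he : ∀ s t : P, s ⋖ t → (ω t < ω s ↔ τ (e t) < τ (e s))) (f : P → ℕ) :
    IsPartition ω f ↔ Filling e.toEquiv f := by
  have hlt : ∀ s t : P, e s < e t → s < t := fun s t h => e.lt_iff_lt.1 h
  have hcov : ∀ s t : P, e s ⋖ e t → s ⋖ t := fun s t h => (apply_covBy_apply_iff e).1 h
  -- labels along a row
  have hrow : ∀ s t : P, (e s).1.1 = (e t).1.1 → (e s).1.2 < (e t).1.2 → ω s < ω t := by
    intro s t h1 h2
    have h3 := row_induction
      (R := fun a b : ↥(lam.cells \ mu.cells) => ω (e.symm a) < ω (e.symm b)) (fun a b h3 h4 => by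
        have h5 : a ⋖ b := covBy_row h3 h4
        have h6 : e.symm a ⋖ e.symm b := by
          apply hcov
          rw [e.apply_symm_apply, e.apply_symm_apply]
          exact h5
        have h7 := he _ _ h6
        rw [e.apply_symm_apply, e.apply_symm_apply] at h7
        have h8 : τ a < τ b := hτ.1 a b h3 (by omega)
        show ω (e.symm a) < ω (e.symm b)
        rcases lt_trichotomy (ω (e.symm a)) (ω (e.symm b)) with h9 | h9 | h9
        · exact h9
        · exact absurd (ω.injective h9) h6.lt.ne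
        · exact absurd (h7.1 h9) (not_lt_of_gt h8))
      (fun a b c h3 h4 => lt_trans h3 h4) h1 h2
    simp only [e.symm_apply_apply] at h3
    exact h3
  constructor
  · intro hf
    constructor
    · intro s t h1 h2
      exact (hf s t (hlt s t (lt_def.2 ⟨⟨h1.le, h2.le⟩, Or.inr h2⟩))).1
    · intro s t h1 h2
      have h3 := col_induction
        (R := fun a b : ↥(lam.cells \ mu.cells) => f (e.symm a) < f (e.symm b)) (fun a b h3 h4 => by
          have h5 : a ⋖ b := covBy_col h3 h4
          have h6 : e.symm a ⋖ e.symm b := by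
            apply hcov
            rw [e.apply_symm_apply, e.apply_symm_apply]
            exact h5
          have h7 := he _ _ h6
          rw [e.apply_symm_apply, e.apply_symm_apply] at h7
          have h8 : τ b < τ a := hτ.2 a b h3 (by omega)
          exact (hf _ _ h6.lt).2 (h7.2 h8))
        (fun a b c h3 h4 => lt_trans h3 h4) (s := e s) (t := e t) h1 h2
      simp only [e.symm_apply_apply] at h3
      exact h3
  · intro hf s t hst
    have h1 : e s ≤ e t := e.monotone hst.le
    have h2 := hf.le (s := s) (t := t) h1.1 h1.2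
    refine ⟨h2.1, fun hω => h2.2 ?_⟩
    by_contra hc
    have h3 : (e s).1.1 = (e t).1.1 := le_antisymm h1.1 (not_lt.1 hc)
    have h4 : (e s).1.2 < (e t).1.2 := by
      rcases h1.2.lt_or_eq with h5 | h5
      · exact h5
      · exact absurd (e.injective (cell_ext h3 h5)) hst.ne
    exact absurd (hrow s t h3 h4) (not_lt_of_gt hω)

end conv

/-- **Stanley's P-partition symmetry conjecture**: `K_{P, ω}` is symmetric if and only if the
labelled poset `(P, ω)` is isomorphic to a skew-shape labelled poset. -/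
theorem result (P : Type) [Fintype P] [PartialOrder P] (ω : P ≃ Fin (Fintype.card P)) :
    Symmetric (K ω) ↔
      ∃ (lam mu : YoungDiagram) (m : ℕ) (τ : ↥(lam.cells \ mu.cells) ≃ Fin m),
        mu ≤ lam ∧ IsSkewLabelling τ ∧ Iso ω τ := by
  rw [symmetric_iff]
  have H := Pool.Agent.ST14.final Pool.Agent.ST14.fa_main P ω
  have hP : ∀ f : P → ℕ, IsPartition ω f ↔ ((∀ s t : P, s < t → f s ≤ f t) ∧
      (∀ s t : P, s < t → ω t < ω s → f s < f t)) := fun f =>
    ⟨fun h => ⟨fun s t hst => (h s t hst).1, fun s t hst => (h s t hst).2⟩,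
      fun h s t hst => ⟨h.1 s t hst, h.2 s t hst⟩⟩
  constructor
  · intro h
    obtain ⟨lam, mu, e, hle, he⟩ := H.1 h
    obtain ⟨τ, h1, h2⟩ := iso_of_fill (ω := ω) e fun f => (hP f).trans (he f)
    exact ⟨lam, mu, _, τ, hle, h1, h2⟩
  · rintro ⟨lam, mu, m, τ, hle, h1, e, he⟩
    exact H.2 ⟨lam, mu, e.toEquiv, hle, fun f => (hP f).symm.trans (fill_of_iso h1 e he f)⟩

end Pool.Agent.Results.MP_49bc13_co.SkewShapeTheorem
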